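import Pool.Agent.Y202.Z.VdcA

/-!
# Project Y826/Z: the `q`-van der Corput step
-/

set_option autoImplicit false

namespace Pool.Agent.Y202.Z

open Finset Pool.Agent.Y826.Z

theorem norm_ec (p : ℕ) (x : ZMod p) : ‖ec p x‖ = 1 := by
  unfold ec
  rw [show (2 * (Real.pi : ℂ) * Complex.I * (((x.val : ℝ) / (p : ℝ) : ℝ) : ℂ)) =
    ((2 * Real.pi * ((x.val : ℝ) / (p : ℝ)) : ℝ) : ℂ) * Complex.I by push_cast; ring]
  exact Complex.norm_exp_ofReal_mul_I _

theorem norm_lp (p : ℕ) (A c : ZMod p) (n : ℤ) : ‖Pool.Agent.Y826.Z.lp p A c n‖ ≤ 1 := by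
  unfold Pool.Agent.Y826.Z.lp
  split_ifs
  · simp
  · rw [norm_ec]

theorem norm_PH (P : Finset ℕ) (A c : (p : ℕ) → ZMod p) (n : ℤ) : ‖PH P A c n‖ ≤ 1 := by
  unfold PH
  rw [norm_prod]
  exact Finset.prod_le_one (fun _ _ => norm_nonneg _) fun p _ => norm_lp p _ _ _

/-- product of the primes of `P` dividing `j` -/
def hh (P : Finset ℕ) (j : ℕ) : ℕ := ∏ p ∈ P.filter (fun p => p ∣ j), p

theorem prod_pos_of {P : Finset ℕ} (hP : ∀ p ∈ P, p.Prime) : 0 < ∏ p ∈ P, p :=
  Finset.prod_pos fun p hp => (hP p hp).pos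

theorem sum_hh {P : Finset ℕ} (hP : ∀ p ∈ P, p.Prime) (L : ℕ) :
    ∑ j ∈ Ico 1 L, Real.sqrt (hh P j : ℝ) ≤ 2 ^ P.card * L := by
  classical
  calc ∑ j ∈ Ico 1 L, Real.sqrt (hh P j : ℝ)
      ≤ ∑ j ∈ Ico 1 L, ∑ T ∈ P.powerset,
        (if (∏ p ∈ T, p) ∣ j then Real.sqrt ((∏ p ∈ T, p : ℕ) : ℝ) else 0) := by
        refine Finset.sum_le_sum fun j hj => ?_
        have h1 : P.filter (fun p => p ∣ j) ∈ P.powerset :=
          mem_powerset.2 (Finset.filter_subset _ _)
        have h2 : (∏ p ∈ P.filter (fun p => p ∣ j), p) ∣ j :=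
          Finset.prod_primes_dvd j (fun p hp => (hP p (mem_filter.1 hp).1).prime)
            fun p hp => (mem_filter.1 hp).2
        calc Real.sqrt (hh P j : ℝ) =
            (if (∏ p ∈ P.filter (fun p => p ∣ j), p) ∣ j then
              Real.sqrt ((∏ p ∈ P.filter (fun p => p ∣ j), p : ℕ) : ℝ) else 0) := by
              rw [if_pos h2]
              rfl
          _ ≤ _ := Finset.single_le_sum (f := fun T : Finset ℕ => (if (∏ p ∈ T, p) ∣ j then
              Real.sqrt ((∏ p ∈ T, p : ℕ) : ℝ) else 0)) (fun T _ => by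
                split_ifs
                · positivity
                · exact le_rfl) h1
    _ = ∑ T ∈ P.powerset, ∑ j ∈ Ico 1 L,
        (if (∏ p ∈ T, p) ∣ j then Real.sqrt ((∏ p ∈ T, p : ℕ) : ℝ) else 0) := Finset.sum_comm
    _ ≤ ∑ T ∈ P.powerset, (L : ℝ) := by
        refine Finset.sum_le_sum fun T hT => ?_
        have hTp : ∀ p ∈ T, p.Prime := fun p hp => hP p (mem_powerset.1 hT hp)
        set m := ∏ p ∈ T, p with hm
        have hm0 : 0 < m := prod_pos_of hTp
        have hmR : (1 : ℝ) ≤ (m : ℝ) := by exact_mod_cast hm0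
        rw [← Finset.sum_filter, Finset.sum_const, nsmul_eq_mul]
        have h1 : ((Ico 1 L).filter (fun j => m ∣ j)).card ≤ L / m := by
          rw [← Nat.Ioc_filter_dvd_card_eq_div L m]
          refine Finset.card_le_card ?_
          intro j hj
          rw [mem_filter, mem_Ico] at hj
          rw [mem_filter, mem_Ioc]
          omega
        have h2 : ((L / m : ℕ) : ℝ) ≤ (L : ℝ) / m := Nat.cast_div_le
        have h3 : Real.sqrt (m : ℝ) ≤ m := by
          rw [Real.sqrt_le_left (by positivity)]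
          nlinarith
        calc (((Ico 1 L).filter (fun j => m ∣ j)).card : ℝ) * Real.sqrt (m : ℝ)
            ≤ ((L : ℝ) / m) * m := by
              refine mul_le_mul (le_trans (by exact_mod_cast h1) h2) h3 (Real.sqrt_nonneg _) ?_
              positivity
          _ = L := by field_simp
    _ = _ := by
        rw [Finset.sum_const, card_powerset, nsmul_eq_mul]
        push_cast
        ring

open Classical in
theorem deg_prod {P : Finset ℕ} (hP : ∀ p ∈ P, p.Prime) (A : (p : ℕ) → ZMod p) {d : ℕ}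
    (hd : ∀ p ∈ P, ¬ p ∣ d) {j : ℕ} {κ : ℤ} (hκ : |κ| = (j : ℤ) * d) :
    (∏ p ∈ P.filter (fun p => A p = 0 ∨ (κ : ZMod p) = 0), p) ≤
      (∏ p ∈ P.filter (fun p => A p = 0), p) * hh P j := by
  have h1 : P.filter (fun p => A p = 0 ∨ (κ : ZMod p) = 0) ⊆
      P.filter (fun p => A p = 0) ∪ P.filter (fun p => p ∣ j) := by
    intro p hp
    rw [mem_filter] at hp
    rw [mem_union, mem_filter, mem_filter]
    rcases hp.2 with h | h
    · exact Or.inl ⟨hp.1, h⟩
    · refine Or.inr ⟨hp.1, ?_⟩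
      rw [ZMod.intCast_zmod_eq_zero_iff_dvd] at h
      have h2 : (p : ℤ) ∣ |κ| := (dvd_abs _ _).2 h
      rw [hκ] at h2
      have h3 : p ∣ j * d := by exact_mod_cast h2
      rcases (hP p hp.1).dvd_mul.1 h3 with h | h
      · exact h
      · exact (hd p hp.1 h).elim
  have hge : ∀ T : Finset ℕ, T ⊆ P → 1 ≤ ∏ p ∈ T, p := fun T hT =>
    prod_pos_of fun p hp => hP p (hT hp)
  calc _ ≤ ∏ p ∈ P.filter (fun p => A p = 0) ∪ P.filter (fun p => p ∣ j), p := by
        refine Finset.prod_le_prod_of_subset_of_one_le' h1 fun p hp _ => ?_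
        rw [mem_union, mem_filter, mem_filter] at hp
        rcases hp with hp | hp
        · exact (hP p hp.1).one_le
        · exact (hP p hp.1).one_le
    _ ≤ (∏ p ∈ P.filter (fun p => A p = 0) ∪ P.filter (fun p => p ∣ j), p) *
        ∏ p ∈ P.filter (fun p => A p = 0) ∩ P.filter (fun p => p ∣ j), p :=
        Nat.le_mul_of_pos_right _ (hge _ (Finset.inter_subset_left.trans
          (Finset.filter_subset _ _)))
    _ = _ := Finset.prod_union_inter

/-- `(2 C) ^ ω(D) (1 + log D) ≪ D ^ ε` -/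
theorem small_loss {C ε : ℝ} (hC : 1 ≤ C) (hε : 0 < ε) : ∃ K : ℝ, 1 ≤ K ∧ ∀ P : Finset ℕ,
    (∀ p ∈ P, p.Prime) → (2 * C) ^ P.card * (1 + Real.log ((∏ p ∈ P, p : ℕ) : ℝ)) ≤
      K * ((∏ p ∈ P, p : ℕ) : ℝ) ^ ε := by
  classical
  obtain ⟨P0, hP0⟩ := exists_nat_gt ((2 * C) ^ (2 / ε))
  refine ⟨(2 * C) ^ (P0 + 1) * (1 + 2 / ε), ?_, ?_⟩
  · have h1 : (1 : ℝ) ≤ (2 * C) ^ (P0 + 1) := one_le_pow₀ (by linarith)
    have h2 : (1 : ℝ) ≤ 1 + 2 / ε := by
      have : 0 < 2 / ε := by positivity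
      linarith
    nlinarith
  · intro P hP
    set D : ℕ := ∏ p ∈ P, p with hD
    have hD1 : 1 ≤ D := prod_pos_of hP
    have hDR : (1 : ℝ) ≤ D := by exact_mod_cast hD1
    have hDε : (D : ℝ) ^ ε = (D : ℝ) ^ (ε / 2) * (D : ℝ) ^ (ε / 2) := by
      rw [← Real.rpow_add (by linarith)]
      congr 1
      ring
    have hD2 : (1 : ℝ) ≤ (D : ℝ) ^ (ε / 2) := Real.one_le_rpow hDR (by positivity)
    -- the logarithm
    have h1 : 1 + Real.log D ≤ (1 + 2 / ε) * (D : ℝ) ^ (ε / 2) := by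
      have h2 := Real.log_le_rpow_div (by linarith : (0 : ℝ) ≤ D) (by positivity : 0 < ε / 2)
      have h3 : (D : ℝ) ^ (ε / 2) / (ε / 2) = 2 / ε * (D : ℝ) ^ (ε / 2) := by
        field_simp
      rw [h3] at h2
      linarith
    -- the power
    have h2 : (2 * C) ^ P.card ≤ (2 * C) ^ (P0 + 1) * (D : ℝ) ^ (ε / 2) := by
      have e1 : ∀ p ∈ P, (2 * C : ℝ) ≤ (if p ≤ P0 then 2 * C else 1) * (p : ℝ) ^ (ε / 2) := by
        intro p hp
        have hp1 : (1 : ℝ) ≤ p := by exact_mod_cast (hP p hp).one_le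
        split_ifs with h
        · have := Real.one_le_rpow hp1 (by positivity : 0 ≤ ε / 2)
          nlinarith
        · push Not at h
          rw [one_mul]
          have h3 : (2 * C) ^ (2 / ε) ≤ (p : ℝ) := by
            have : (P0 : ℝ) < p := by exact_mod_cast h
            linarith
          calc (2 * C : ℝ) = ((2 * C) ^ (2 / ε)) ^ (ε / 2) := by
                rw [← Real.rpow_mul (by linarith)]
                have : 2 / ε * (ε / 2) = 1 := by field_simp
                rw [this, Real.rpow_one]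
            _ ≤ _ := Real.rpow_le_rpow (by positivity) h3 (by positivity)
      calc (2 * C) ^ P.card = ∏ p ∈ P, (2 * C) := by rw [Finset.prod_const]
        _ ≤ ∏ p ∈ P, ((if p ≤ P0 then 2 * C else 1) * (p : ℝ) ^ (ε / 2)) :=
            Finset.prod_le_prod (fun _ _ => by positivity) e1
        _ = (∏ p ∈ P, (if p ≤ P0 then 2 * C else 1)) * (D : ℝ) ^ (ε / 2) := by
            rw [Finset.prod_mul_distrib, hD, Nat.cast_prod,
              Real.finsetProd_rpow _ _ (fun p _ => by positivity)]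
        _ ≤ (2 * C) ^ (P0 + 1) * (D : ℝ) ^ (ε / 2) := by
            refine mul_le_mul_of_nonneg_right ?_ (by positivity)
            rw [Finset.prod_ite, Finset.prod_const, Finset.prod_const_one, mul_one]
            refine pow_le_pow_right₀ (by linarith) ?_
            calc (P.filter (fun p => p ≤ P0)).card ≤ (range (P0 + 1)).card := by
                  refine Finset.card_le_card fun p hp => ?_
                  rw [mem_range]
                  have := (mem_filter.1 hp).2
                  omega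
              _ = P0 + 1 := card_range _
    have h3 : 0 ≤ 1 + Real.log D := by
      have := Real.log_nonneg hDR
      linarith
    calc (2 * C) ^ P.card * (1 + Real.log D)
        ≤ ((2 * C) ^ (P0 + 1) * (D : ℝ) ^ (ε / 2)) * ((1 + 2 / ε) * (D : ℝ) ^ (ε / 2)) :=
          mul_le_mul h2 h1 h3 (by positivity)
      _ = _ := by rw [hDε]; ring

theorem vdc (hC : S_CINC) : S_VDC := by
  classical
  obtain ⟨C, hC1, hC⟩ := hC
  intro ε hε
  obtain ⟨K, hK1, hK⟩ := small_loss hC1 hε
  refine ⟨4 * K, by linarith, ?_⟩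
  intro P hP A c a N d hd hdN hPd Z hZ hZ1
  set D : ℕ := ∏ p ∈ P, p with hD
  set g : ℕ := ∏ p ∈ P.filter (fun p => A p = 0), p with hg
  have hD1 : 1 ≤ D := prod_pos_of hP
  have hDR : (1 : ℝ) ≤ D := by exact_mod_cast hD1
  have hg1 : 1 ≤ g := prod_pos_of fun p hp => hP p (mem_filter.1 hp).1
  have hlog : 0 ≤ Real.log (D : ℝ) := Real.log_nonneg hDR
  have hN1 : 1 ≤ N := hd.trans hdN
  have hNR : (1 : ℝ) ≤ N := by exact_mod_cast hN1
  set L : ℕ := N / d with hL
  have hL1 : 1 ≤ L := (Nat.one_le_div_iff (by omega)).2 hdN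
  set S := ∑ n ∈ Ico a (a + N), Z n * PH P A c n with hS
  set K0 : ℝ := C ^ P.card * (N / (D : ℝ) + 1 + Real.log (D : ℝ)) * Real.sqrt (D : ℝ) *
    Real.sqrt (g : ℝ) with hK0
  have hK0nn : 0 ≤ K0 := by positivity
  set B : ℕ → ℝ := fun j => if j = 0 then (N : ℝ) else K0 * Real.sqrt (hh P j : ℝ) with hB
  have hBnn : ∀ j, 0 ≤ B j := by
    intro j
    rw [hB]
    dsimp only
    split_ifs <;> positivity
  have hmain := vdc_ineq (PH P A c) Z a N d hd hdN hZ hZ1 B hBnn (by
    intro j hj κ b M hκ hM1 hMN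
    rw [hB]
    dsimp only
    split_ifs with hj0
    · subst hj0
      have hκ0 : κ = 0 := by
        rw [← abs_eq_zero, hκ]
        simp
      subst hκ0
      refine (norm_sum_le _ _).trans ?_
      calc ∑ n ∈ Ico b (b + M), ‖PH P A c (n + 0) * (starRingEnd ℂ) (PH P A c n)‖
          ≤ ∑ n ∈ Ico b (b + (M : ℤ)), (1 : ℝ) := by
            refine Finset.sum_le_sum fun n _ => ?_
            rw [norm_mul, RCLike.norm_conj]
            exact mul_le_one₀ (norm_PH _ _ _ _) (norm_nonneg _) (norm_PH _ _ _ _)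
        _ = M := by
            rw [Finset.sum_const, Int.card_Ico, nsmul_eq_mul, mul_one]
            congr 1
            omega
        _ ≤ N := by exact_mod_cast hMN
    · have h1 := hC P hP A c κ b M hM1
      refine h1.trans ?_
      have h2 := deg_prod hP A hPd hκ
      have h3 : Real.sqrt ((∏ p ∈ P.filter (fun p => A p = 0 ∨ (κ : ZMod p) = 0), p : ℕ) : ℝ) ≤
          Real.sqrt (g : ℝ) * Real.sqrt (hh P j : ℝ) := by
        rw [← Real.sqrt_mul (by positivity)]
        refine Real.sqrt_le_sqrt ?_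
        exact_mod_cast h2
      have h4 : (M : ℝ) / D ≤ (N : ℝ) / D :=
        div_le_div_of_nonneg_right (by exact_mod_cast hMN) (by positivity)
      calc _ ≤ C ^ P.card * (N / (D : ℝ) + 1 + Real.log (D : ℝ)) * Real.sqrt (D : ℝ) *
            (Real.sqrt (g : ℝ) * Real.sqrt (hh P j : ℝ)) := by
            refine mul_le_mul ?_ h3 (Real.sqrt_nonneg _) (by positivity)
            refine mul_le_mul_of_nonneg_right ?_ (Real.sqrt_nonneg _)
            refine mul_le_mul_of_nonneg_left ?_ (by positivity)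
            linarith
        _ = _ := by rw [hK0]; ring)
  rw [← hL, ← hS] at hmain
  have hsum : ∑ j ∈ Ico 1 L, B j ≤ K0 * (2 ^ P.card * L) := by
    calc ∑ j ∈ Ico 1 L, B j = ∑ j ∈ Ico 1 L, K0 * Real.sqrt (hh P j : ℝ) := by
          refine Finset.sum_congr rfl fun j hj => ?_
          have := (mem_Ico.1 hj).1
          rw [hB]
          dsimp only
          rw [if_neg (by omega)]
      _ = K0 * ∑ j ∈ Ico 1 L, Real.sqrt (hh P j : ℝ) := by rw [Finset.mul_sum]
      _ ≤ _ := mul_le_mul_of_nonneg_left (sum_hh hP L) hK0nn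
  have hB00 : B 0 = N := by
    rw [hB]
    simp
  have hNL : (N : ℝ) ≤ 2 * L * d := by
    have h1 : N < L * d + d := by
      have h2 := Nat.div_add_mod N d
      have h3 := Nat.mod_lt N (by omega : 0 < d)
      rw [hL, mul_comm (N / d) d]
      omega
    have h2 : d ≤ L * d := Nat.le_mul_of_pos_left d hL1
    have h3 : N ≤ 2 * L * d := by
      have : 2 * L * d = L * d + L * d := by ring
      omega
    exact_mod_cast h3
  have hLpos : (0 : ℝ) < L := by exact_mod_cast hL1
  have h1 : ‖S‖ ^ 2 ≤ 4 * N * d + 4 * N * (K0 * 2 ^ P.card) := by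
    refine le_of_mul_le_mul_left ?_ hLpos
    calc (L : ℝ) * ‖S‖ ^ 2 ≤ 2 * N * (B 0 + 2 * ∑ j ∈ Ico 1 L, B j) := hmain
      _ ≤ 2 * N * (2 * L * d + 2 * (K0 * (2 ^ P.card * L))) := by
          refine mul_le_mul_of_nonneg_left ?_ (by positivity)
          rw [hB00]
          linarith
      _ = _ := by ring
  -- the size of `K0`
  have hsD : Real.sqrt (D : ℝ) * Real.sqrt (D : ℝ) = D := Real.mul_self_sqrt (by positivity)
  have hsDpos : 0 < Real.sqrt (D : ℝ) := Real.sqrt_pos.2 (by positivity)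
  have h2 : K0 * 2 ^ P.card ≤ K * (D : ℝ) ^ ε * (Real.sqrt (g : ℝ) *
      (Real.sqrt (D : ℝ) + N / Real.sqrt (D : ℝ))) := by
    have e1 : (N / (D : ℝ) + 1 + Real.log (D : ℝ)) * Real.sqrt (D : ℝ) ≤
        (1 + Real.log (D : ℝ)) * (Real.sqrt (D : ℝ) + N / Real.sqrt (D : ℝ)) := by
      have e2 : (N : ℝ) / D * Real.sqrt (D : ℝ) = N / Real.sqrt (D : ℝ) := by
        rw [div_mul_eq_mul_div, div_eq_div_iff (by positivity) hsDpos.ne']
        rw [mul_assoc, hsD]
      have e3 : 0 ≤ (N : ℝ) / Real.sqrt (D : ℝ) := by positivity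
      have e4 : (N / (D : ℝ) + 1 + Real.log (D : ℝ)) * Real.sqrt (D : ℝ) =
          N / Real.sqrt (D : ℝ) + (1 + Real.log (D : ℝ)) * Real.sqrt (D : ℝ) := by
        rw [← e2]; ring
      rw [e4]
      nlinarith
    calc K0 * 2 ^ P.card = (2 * C) ^ P.card *
          ((N / (D : ℝ) + 1 + Real.log (D : ℝ)) * Real.sqrt (D : ℝ)) * Real.sqrt (g : ℝ) := by
          rw [hK0, mul_pow]; ring
      _ ≤ (2 * C) ^ P.card * ((1 + Real.log (D : ℝ)) *
          (Real.sqrt (D : ℝ) + N / Real.sqrt (D : ℝ))) * Real.sqrt (g : ℝ) := by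
          refine mul_le_mul_of_nonneg_right ?_ (Real.sqrt_nonneg _)
          exact mul_le_mul_of_nonneg_left e1 (by positivity)
      _ = ((2 * C) ^ P.card * (1 + Real.log (D : ℝ))) * (Real.sqrt (g : ℝ) *
          (Real.sqrt (D : ℝ) + N / Real.sqrt (D : ℝ))) := by ring
      _ ≤ _ := mul_le_mul_of_nonneg_right (hK P hP) (by positivity)
  have hND : (D : ℝ) ^ ε ≤ ((N : ℝ) * D) ^ ε := by
    refine Real.rpow_le_rpow (by positivity) ?_ hε.le
    nlinarith
  have hND1 : 1 ≤ ((N : ℝ) * D) ^ ε := Real.one_le_rpow (by nlinarith) hε.le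
  have hX : 0 ≤ Real.sqrt (g : ℝ) * (Real.sqrt (D : ℝ) + N / Real.sqrt (D : ℝ)) := by positivity
  set X := Real.sqrt (g : ℝ) * (Real.sqrt (D : ℝ) + N / Real.sqrt (D : ℝ)) with hXdef
  set T := ((N : ℝ) * D) ^ ε with hT
  calc ‖S‖ ^ 2 ≤ 4 * N * d + 4 * N * (K0 * 2 ^ P.card) := h1
    _ ≤ 4 * N * d + 4 * N * (K * T * X) := by
        have h3 : K0 * 2 ^ P.card ≤ K * T * X := by
          refine h2.trans ?_
          refine mul_le_mul_of_nonneg_right ?_ hX
          exact mul_le_mul_of_nonneg_left hND (by linarith)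
        have h4 := mul_le_mul_of_nonneg_left h3 (by positivity : (0 : ℝ) ≤ 4 * N)
        linarith
    _ ≤ 4 * K * T * (N * d) + 4 * N * (K * T * X) := by
        have h5 : (1 : ℝ) ≤ K * T := by nlinarith
        have h6 : (0 : ℝ) ≤ N * d := by positivity
        nlinarith
    _ = 4 * K * T * (N * d + N * Real.sqrt (g : ℝ) *
        (Real.sqrt (D : ℝ) + N / Real.sqrt (D : ℝ))) := by rw [hXdef]; ring

end Pool.Agent.Y202.Z
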