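import Pool.Agent.Y826.Z.Defs

/-!
# Project Y826/Z: the van der Corput inequality with a periodic factor
-/

set_option autoImplicit false

namespace Pool.Agent.Y202.Z

open Finset Pool.Agent.Y826.Z

theorem sum_shift (F : ℤ → ℂ) (u v w : ℤ) :
    ∑ n ∈ Ico u v, F (n + w) = ∑ n ∈ Ico (u + w) (v + w), F n := by
  rw [← Finset.map_add_right_Ico, Finset.sum_map]
  rfl

theorem sum_ind (g : ℤ → ℂ) {u v a b : ℤ} (h1 : u ≤ a) (h2 : b ≤ v) :
    ∑ n ∈ Ico u v, (if n ∈ Ico a b then g n else 0) = ∑ n ∈ Ico a b, g n := by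
  rw [Finset.sum_ite_mem, Finset.inter_eq_right.2 (Finset.Ico_subset_Ico h1 h2)]

/-- one pair of shifts -/
theorem pair_sum (f : ℤ → ℂ) (a : ℤ) (N d L k k' : ℕ) (hLd : L * d ≤ N) (hd : 1 ≤ d)
    (hk : k < L) (hk' : k' < L) :
    ∃ (κ b : ℤ) (M : ℕ), |κ| = ((Nat.dist k k' : ℕ) : ℤ) * d ∧ 1 ≤ M ∧ M ≤ N ∧
      ∑ n ∈ Ico (a - L * d) (a + N),
        (if n + (k : ℤ) * d ∈ Ico a (a + N) then f (n + (k : ℤ) * d) else 0) *
        (starRingEnd ℂ) (if n + (k' : ℤ) * d ∈ Ico a (a + N) then f (n + (k' : ℤ) * d) else 0) =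
      ∑ n ∈ Ico b (b + M), f (n + κ) * (starRingEnd ℂ) (f n) := by
  set κ : ℤ := ((k : ℤ) - k') * d with hκ
  have habs : |κ| = ((Nat.dist k k' : ℕ) : ℤ) * d := by
    rw [hκ, abs_mul, Nat.abs_cast]
    congr 1
    rcases le_total k k' with h | h
    · rw [Nat.dist_eq_sub_of_le h, Nat.cast_sub h, abs_of_nonpos (by omega)]
      ring
    · rw [Nat.dist_eq_sub_of_le_right h, Nat.cast_sub h, abs_of_nonneg (by omega)]
  have hdist : Nat.dist k k' + 1 ≤ L := by
    rcases le_total k k' with h | h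
    · rw [Nat.dist_eq_sub_of_le h]; omega
    · rw [Nat.dist_eq_sub_of_le_right h]; omega
  have hlt : |κ| + 1 ≤ N := by
    rw [habs]
    have h1 : (Nat.dist k k' + 1) * d ≤ L * d := Nat.mul_le_mul_right d hdist
    have h2 : Nat.dist k k' * d + 1 ≤ N := by
      calc Nat.dist k k' * d + 1 ≤ Nat.dist k k' * d + d := by omega
        _ = (Nat.dist k k' + 1) * d := by ring
        _ ≤ N := h1.trans hLd
    exact_mod_cast h2
  refine ⟨κ, max a (a - κ), (N - |κ|).toNat, habs, ?_, ?_, ?_⟩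
  · omega
  · have := abs_nonneg κ
    omega
  · have hM : (((N - |κ|).toNat : ℕ) : ℤ) = N - |κ| := Int.toNat_of_nonneg (by omega)
    obtain ⟨F, hF⟩ : ∃ F : ℤ → ℂ, F = fun m : ℤ =>
        if m ∈ Ico (max a (a - κ)) (max a (a - κ) + ((N - |κ|).toNat : ℕ)) then
          f (m + κ) * (starRingEnd ℂ) (f m) else 0 := ⟨_, rfl⟩
    have e1 : ∀ n : ℤ, (if n + (k : ℤ) * d ∈ Ico a (a + N) then f (n + (k : ℤ) * d) else 0) *
        (starRingEnd ℂ) (if n + (k' : ℤ) * d ∈ Ico a (a + N) then f (n + (k' : ℤ) * d) else 0) =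
        F (n + (k' : ℤ) * d) := by
      intro n
      have e2 : n + (k' : ℤ) * d + κ = n + (k : ℤ) * d := by
        rw [hκ]; ring
      rw [hF]
      dsimp only
      rw [e2, hM]
      have e3 : (n + (k' : ℤ) * d ∈ Ico (max a (a - κ)) (max a (a - κ) + (N - |κ|))) ↔
          (n + (k : ℤ) * d ∈ Ico a (a + N) ∧ n + (k' : ℤ) * d ∈ Ico a (a + N)) := by
        rw [mem_Ico, mem_Ico, mem_Ico, ← e2]
        generalize n + (k' : ℤ) * d = m
        generalize κ = x
        rcases le_total 0 x with h | h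
        · rw [abs_of_nonneg h, max_eq_left (by omega)]
          omega
        · rw [abs_of_nonpos h, max_eq_right (by omega)]
          omega
      by_cases h1 : n + (k : ℤ) * d ∈ Ico a (a + N)
      · by_cases h2 : n + (k' : ℤ) * d ∈ Ico a (a + N)
        · rw [if_pos h1, if_pos h2, if_pos (e3.2 ⟨h1, h2⟩)]
        · rw [if_neg h2, if_neg (fun h => h2 (e3.1 h).2), map_zero, mul_zero]
      · rw [if_neg h1, if_neg (fun h => h1 (e3.1 h).1), zero_mul]
    rw [Finset.sum_congr rfl fun n _ => e1 n, sum_shift, hF, sum_ind]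
    · have h1 : (k' : ℤ) * d ≤ L * d := by
        exact_mod_cast Nat.mul_le_mul_right d hk'.le
      have h2 := le_max_left a (a - κ)
      omega
    · rw [hM]
      have h1 : (0 : ℤ) ≤ (k' : ℤ) * d := by positivity
      rcases le_total 0 κ with h | h
      · rw [abs_of_nonneg h, max_eq_left (by omega)]
        omega
      · rw [abs_of_nonpos h, max_eq_right (by omega)]
        omega

theorem sum_dist (B : ℕ → ℝ) (hB : ∀ j, 0 ≤ B j) (L k : ℕ) (hk : k < L) :
    ∑ k' ∈ range L, B (Nat.dist k k') ≤ B 0 + 2 * ∑ j ∈ Ico 1 L, B j := by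
  classical
  have h0 : ∑ k' ∈ range L, B (Nat.dist k k') =
      ∑ k' ∈ (range L).filter (fun k' => k' ≤ k), B (Nat.dist k k') +
      ∑ k' ∈ (range L).filter (fun k' => ¬ k' ≤ k), B (Nat.dist k k') :=
    (Finset.sum_filter_add_sum_filter_not _ _ _).symm
  have h1 : ∑ k' ∈ (range L).filter (fun k' => k' ≤ k), B (Nat.dist k k') ≤
      B 0 + ∑ j ∈ Ico 1 L, B j := by
    have e1 : B 0 + ∑ j ∈ Ico 1 L, B j = ∑ j ∈ range L, B j := by
      rw [Finset.range_eq_Ico, Finset.sum_eq_sum_Ico_succ_bot (a := 0) (by omega)]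
    rw [e1]
    calc ∑ k' ∈ (range L).filter (fun k' => k' ≤ k), B (Nat.dist k k')
        = ∑ j ∈ ((range L).filter (fun k' => k' ≤ k)).image (fun k' => k - k'), B j := by
          rw [Finset.sum_image]
          · refine Finset.sum_congr rfl fun k' hk' => ?_
            rw [Nat.dist_eq_sub_of_le_right (mem_filter.1 hk').2]
          · intro x hx y hy hxy
            have hx' := (mem_filter.1 (Finset.mem_coe.1 hx)).2
            have hy' := (mem_filter.1 (Finset.mem_coe.1 hy)).2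
            dsimp only at hxy
            omega
      _ ≤ _ := by
          refine Finset.sum_le_sum_of_subset_of_nonneg ?_ fun _ _ _ => hB _
          intro j hj
          rw [mem_image] at hj
          obtain ⟨k', -, rfl⟩ := hj
          rw [mem_range]
          omega
  have h2 : ∑ k' ∈ (range L).filter (fun k' => ¬ k' ≤ k), B (Nat.dist k k') ≤
      ∑ j ∈ Ico 1 L, B j := by
    calc ∑ k' ∈ (range L).filter (fun k' => ¬ k' ≤ k), B (Nat.dist k k')
        = ∑ j ∈ ((range L).filter (fun k' => ¬ k' ≤ k)).image (fun k' => k' - k), B j := by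
          rw [Finset.sum_image]
          · refine Finset.sum_congr rfl fun k' hk' => ?_
            have := (mem_filter.1 hk').2
            rw [Nat.dist_eq_sub_of_le (by omega)]
          · intro x hx y hy hxy
            have hx' := (mem_filter.1 (Finset.mem_coe.1 hx)).2
            have hy' := (mem_filter.1 (Finset.mem_coe.1 hy)).2
            dsimp only at hxy
            omega
      _ ≤ _ := by
          refine Finset.sum_le_sum_of_subset_of_nonneg ?_ fun _ _ _ => hB _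
          intro j hj
          rw [mem_image] at hj
          obtain ⟨k', hk', rfl⟩ := hj
          rw [mem_filter, mem_range] at hk'
          rw [mem_Ico]
          omega
  linarith

/-- the van der Corput inequality -/
theorem vdc_ineq (f Z : ℤ → ℂ) (a : ℤ) (N d : ℕ) (hd : 1 ≤ d) (hdN : d ≤ N)
    (hZ : ∀ n, Z (n + d) = Z n) (hZ1 : ∀ n, ‖Z n‖ ≤ 1) (B : ℕ → ℝ) (hB0 : ∀ j, 0 ≤ B j)
    (hB : ∀ j, j < N / d → ∀ (κ b : ℤ) (M : ℕ), |κ| = (j : ℤ) * d → 1 ≤ M → M ≤ N →
      ‖∑ n ∈ Ico b (b + M), f (n + κ) * (starRingEnd ℂ) (f n)‖ ≤ B j) :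
    ((N / d : ℕ) : ℝ) * ‖∑ n ∈ Ico a (a + N), Z n * f n‖ ^ 2 ≤
      2 * N * (B 0 + 2 * ∑ j ∈ Ico 1 (N / d), B j) := by
  classical
  set L : ℕ := N / d with hL
  have hL1 : 1 ≤ L := (Nat.one_le_div_iff (by omega)).2 hdN
  have hLd : L * d ≤ N := Nat.div_mul_le_self N d
  set S := ∑ n ∈ Ico a (a + N), Z n * f n with hS
  set g : ℕ → ℤ → ℂ := fun k n =>
    if n + (k : ℤ) * d ∈ Ico a (a + N) then f (n + (k : ℤ) * d) else 0 with hg
  set J : Finset ℤ := Ico (a - L * d) (a + N) with hJ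
  have hZk : ∀ (k : ℕ) (n : ℤ), Z (n + (k : ℤ) * d) = Z n := by
    intro k
    induction k with
    | zero => intro n; simp
    | succ k ih =>
      intro n
      rw [show n + ((k + 1 : ℕ) : ℤ) * d = (n + (k : ℤ) * d) + d by push_cast; ring, hZ, ih]
  have hJc : (J.card : ℝ) ≤ 2 * N := by
    rw [hJ, Int.card_Ico]
    have h1 : (a + N - (a - L * d)).toNat ≤ 2 * N := by
      have : (L : ℤ) * d ≤ N := by exact_mod_cast hLd
      omega
    exact_mod_cast h1
  -- L S = sum over J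
  have hLS : (L : ℂ) * S = ∑ n ∈ J, Z n * ∑ k ∈ range L, g k n := by
    calc (L : ℂ) * S = ∑ k ∈ range L, S := by rw [Finset.sum_const, card_range, nsmul_eq_mul]
      _ = ∑ k ∈ range L, ∑ n ∈ J, Z n * g k n := by
          refine Finset.sum_congr rfl fun k hk => ?_
          have hk' := mem_range.1 hk
          obtain ⟨F, hF⟩ : ∃ F : ℤ → ℂ, F = fun m : ℤ =>
            if m ∈ Ico a (a + N) then Z m * f m else 0 := ⟨_, rfl⟩
          have e1 : ∀ n : ℤ, Z n * g k n = F (n + (k : ℤ) * d) := by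
            intro n
            rw [hg, hF]
            dsimp only
            split_ifs with h
            · rw [hZk]
            · rw [mul_zero]
          have h1 : (k : ℤ) * d ≤ L * d := by
            exact_mod_cast Nat.mul_le_mul_right d hk'.le
          have h2 : (0 : ℤ) ≤ (k : ℤ) * d := by positivity
          rw [Finset.sum_congr rfl fun n _ => e1 n, sum_shift, hF,
            sum_ind _ (by omega) (by omega)]
      _ = _ := by
          rw [Finset.sum_comm]
          refine Finset.sum_congr rfl fun n _ => ?_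
          rw [Finset.mul_sum]
  -- the second moment
  have hG : ∑ n ∈ J, ‖∑ k ∈ range L, g k n‖ ^ 2 ≤
      L * (B 0 + 2 * ∑ j ∈ Ico 1 L, B j) := by
    have e1 : ((∑ n ∈ J, ‖∑ k ∈ range L, g k n‖ ^ 2 : ℝ) : ℂ) =
        ∑ k ∈ range L, ∑ k' ∈ range L, ∑ n ∈ J, g k n * (starRingEnd ℂ) (g k' n) := by
      push_cast
      calc _ = ∑ n ∈ J, ∑ k ∈ range L, ∑ k' ∈ range L, g k n * (starRingEnd ℂ) (g k' n) := by
            refine Finset.sum_congr rfl fun n _ => ?_
            rw [← Complex.mul_conj', map_sum, Finset.sum_mul_sum]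
        _ = _ := by
            rw [Finset.sum_comm]
            refine Finset.sum_congr rfl fun k _ => ?_
            rw [Finset.sum_comm]
    have e2 : ∑ n ∈ J, ‖∑ k ∈ range L, g k n‖ ^ 2 =
        ‖((∑ n ∈ J, ‖∑ k ∈ range L, g k n‖ ^ 2 : ℝ) : ℂ)‖ := by
      rw [Complex.norm_real, Real.norm_of_nonneg]
      positivity
    rw [e2, e1]
    calc _ ≤ ∑ k ∈ range L, ∑ k' ∈ range L, B (Nat.dist k k') := by
          refine (norm_sum_le _ _).trans (Finset.sum_le_sum fun k hk => ?_)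
          refine (norm_sum_le _ _).trans (Finset.sum_le_sum fun k' hk' => ?_)
          have hk1 := mem_range.1 hk
          have hk2 := mem_range.1 hk'
          obtain ⟨κ, b, M, h1, h2, h3, h4⟩ := pair_sum f a N d L k k' hLd hd hk1 hk2
          rw [hg, hJ]
          dsimp only
          rw [h4]
          refine hB _ ?_ κ b M h1 h2 h3
          rcases le_total k k' with h | h
          · rw [Nat.dist_eq_sub_of_le h]; omega
          · rw [Nat.dist_eq_sub_of_le_right h]; omega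
      _ ≤ ∑ k ∈ range L, (B 0 + 2 * ∑ j ∈ Ico 1 L, B j) :=
          Finset.sum_le_sum fun k hk => sum_dist B hB0 L k (mem_range.1 hk)
      _ = _ := by rw [Finset.sum_const, card_range, nsmul_eq_mul]
  -- Cauchy-Schwarz
  have hCS : ((L : ℝ) * ‖S‖) ^ 2 ≤ 2 * N * (L * (B 0 + 2 * ∑ j ∈ Ico 1 L, B j)) := by
    have e1 : (L : ℝ) * ‖S‖ = ‖(L : ℂ) * S‖ := by
      rw [norm_mul, Complex.norm_natCast]
    rw [e1, hLS]
    have e2 : ‖∑ n ∈ J, Z n * ∑ k ∈ range L, g k n‖ ≤ ∑ n ∈ J, ‖∑ k ∈ range L, g k n‖ := by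
      refine (norm_sum_le _ _).trans (Finset.sum_le_sum fun n _ => ?_)
      rw [norm_mul]
      have := mul_le_mul_of_nonneg_right (hZ1 n) (norm_nonneg (∑ k ∈ range L, g k n))
      linarith
    calc ‖∑ n ∈ J, Z n * ∑ k ∈ range L, g k n‖ ^ 2
        ≤ (∑ n ∈ J, ‖∑ k ∈ range L, g k n‖) ^ 2 := pow_le_pow_left₀ (norm_nonneg _) e2 2
      _ ≤ J.card * ∑ n ∈ J, ‖∑ k ∈ range L, g k n‖ ^ 2 := sq_sum_le_card_mul_sum_sq
      _ ≤ 2 * N * (L * (B 0 + 2 * ∑ j ∈ Ico 1 L, B j)) := by
          refine mul_le_mul hJc hG ?_ (by positivity)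
          positivity
  have hLpos : (0 : ℝ) < L := by exact_mod_cast hL1
  have h5 : (L : ℝ) * (L * ‖S‖ ^ 2) ≤ L * (2 * N * (B 0 + 2 * ∑ j ∈ Ico 1 L, B j)) := by
    calc (L : ℝ) * (L * ‖S‖ ^ 2) = ((L : ℝ) * ‖S‖) ^ 2 := by ring
      _ ≤ _ := hCS
      _ = _ := by ring
  exact le_of_mul_le_mul_left h5 hLpos

end Pool.Agent.Y202.Z
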